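import Pool.Agent.H84.TI.Stm

set_option autoImplicit false

open Finset

namespace Pool.Agent.H71.TI

open Pool.Agent.H84.TI

theorem exp (hFIR : S_FIR) (hSEC : S_SEC) (hWIN : S_WIN) : S_EXP := by
  classical
  intro M _ B hB z l u hlu
  have hM : (0 : ℝ) < M := by
    have := Nat.pos_of_ne_zero (NeZero.ne M)
    exact_mod_cast this
  set m : ℝ := (B.card : ℝ) * u / M with hm
  have h1 : (G B z l : ℝ) * u ≤
      ∑ s ∈ range (l + u), (G B (z + (u : ZMod M) - (s : ZMod M)) u : ℝ) := by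
    exact_mod_cast hWIN B z l u
  have h2 : ∑ s ∈ range (l + u), (G B (z + (u : ZMod M) - (s : ZMod M)) u : ℝ) =
      ((l : ℝ) + u) * m +
        ∑ s ∈ range (l + u), ((G B (z + (u : ZMod M) - (s : ZMod M)) u : ℝ) - m) := by
    rw [Finset.sum_sub_distrib, Finset.sum_const, Finset.card_range, nsmul_eq_mul]
    push_cast
    ring
  have h3 := sq_sum_le_card_mul_sum_sq (s := range (l + u))
    (f := fun s : ℕ => (G B (z + (u : ZMod M) - (s : ZMod M)) u : ℝ) - m)
  rw [Finset.card_range] at h3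
  have hinj : Set.InjOn (fun s : ℕ => z + (u : ZMod M) - (s : ZMod M))
      (range (l + u) : Finset ℕ) := by
    intro s hs s' hs' h
    rw [Finset.mem_coe, Finset.mem_range] at hs hs'
    have h4 : (s : ZMod M) = (s' : ZMod M) := by
      have := h
      simp only [sub_right_inj] at this
      exact this
    rw [ZMod.natCast_eq_natCast_iff'] at h4
    rwa [Nat.mod_eq_of_lt (lt_of_lt_of_le hs hlu), Nat.mod_eq_of_lt (lt_of_lt_of_le hs' hlu)] at h4
  have h4 : ∑ s ∈ range (l + u), ((G B (z + (u : ZMod M) - (s : ZMod M)) u : ℝ) - m) ^ 2 ≤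
      ∑ x : ZMod M, ((G B x u : ℝ) - m) ^ 2 := by
    rw [← Finset.sum_image (f := fun x : ZMod M => ((G B x u : ℝ) - m) ^ 2)
      (g := fun s : ℕ => z + (u : ZMod M) - (s : ZMod M)) hinj]
    exact Finset.sum_le_sum_of_subset_of_nonneg (Finset.subset_univ _)
      (fun x _ _ => sq_nonneg _)
  have h5 : ∑ x : ZMod M, ((G B x u : ℝ) - m) ^ 2 =
      (∑ x : ZMod M, (G B x u : ℝ) ^ 2) - 2 * m * (∑ x : ZMod M, (G B x u : ℝ)) + M * m ^ 2 := by
    have : ∀ x : ZMod M, ((G B x u : ℝ) - m) ^ 2 =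
        (G B x u : ℝ) ^ 2 - 2 * m * (G B x u : ℝ) + m ^ 2 := fun x => by ring
    simp only [this]
    rw [Finset.sum_add_distrib, Finset.sum_sub_distrib, ← Finset.mul_sum, Finset.sum_const,
      Finset.card_univ, ZMod.card, nsmul_eq_mul]
  have h6 : ∑ x : ZMod M, (G B x u : ℝ) = (B.card : ℝ) * u := by
    exact_mod_cast hFIR B u
  have h7 : ∑ x : ZMod M, (G B x u : ℝ) ^ 2 ≤ (B.card : ℝ) * u + (u : ℝ) ^ 2 := by
    have := hSEC B hB u (by omega)
    exact_mod_cast this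
  have h8 : ∑ x : ZMod M, ((G B x u : ℝ) - m) ^ 2 ≤
      (B.card : ℝ) * u + (u : ℝ) ^ 2 - (B.card : ℝ) ^ 2 * (u : ℝ) ^ 2 / M := by
    rw [h5, h6]
    have e : 2 * m * ((B.card : ℝ) * u) - M * m ^ 2 = (B.card : ℝ) ^ 2 * (u : ℝ) ^ 2 / M := by
      rw [hm]
      field_simp
      ring
    linarith
  have hl : (0 : ℝ) ≤ ((l + u : ℕ) : ℝ) := Nat.cast_nonneg _
  have h9 : (∑ s ∈ range (l + u),
      ((G B (z + (u : ZMod M) - (s : ZMod M)) u : ℝ) - m)) ^ 2 ≤
      ((l : ℝ) + u) *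
        ((B.card : ℝ) * u + (u : ℝ) ^ 2 - (B.card : ℝ) ^ 2 * (u : ℝ) ^ 2 / M) := by
    refine h3.trans ?_
    have := mul_le_mul_of_nonneg_left (h4.trans h8) hl
    push_cast at this ⊢
    exact this
  have h10 := (le_abs_self _).trans (Real.abs_le_sqrt h9)
  rw [h2] at h1
  linarith

end Pool.Agent.H71.TI
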