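import Pool.Agent.H84.TI.Stm

set_option autoImplicit false

open Finset

namespace Pool.Agent.H71.TI

open Pool.Agent.H84.TI

theorem pai : S_PAI := by
  classical
  intro M _ B p η hp hη w hw hG z
  have hp0 : 0 < p := by linarith
  set Fb : Finset ℕ := (range w).filter (fun b : ℕ => z - (b : ZMod M) ∈ B) with hFb
  have hmap : ∀ q ∈ (range w ×ˢ range w).filter (fun q : ℕ × ℕ => q.1 + q.2 < w ∧
      z - (q.1 : ZMod M) ∈ B ∧ z - (q.2 : ZMod M) ∈ B), q.2 ∈ Fb := by
    intro q hq
    simp only [hFb, mem_filter, mem_product, mem_range] at hq ⊢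
    exact ⟨hq.1.2, hq.2.2.2⟩
  have h1 : N2 B z w ≤ ∑ b ∈ Fb, G B z (w - b) := by
    unfold N2
    rw [Finset.card_eq_sum_card_fiberwise (f := Prod.snd) hmap]
    apply Finset.sum_le_sum
    intro b hb
    unfold G
    apply Finset.card_le_card_of_injOn Prod.fst
    · intro q hq
      rw [Finset.mem_coe, mem_filter, mem_filter, mem_product] at hq
      rw [Finset.mem_coe, mem_filter, mem_range]
      refine ⟨?_, hq.1.2.2.1⟩
      have h1 := hq.1.2.1
      have h2 := hq.2
      omega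
    · intro q hq q' hq' h
      rw [Finset.mem_coe, mem_filter] at hq hq'
      exact Prod.ext h (hq.2.trans hq'.2.symm)
  have h1' : (N2 B z w : ℝ) ≤ ∑ b ∈ Fb, (G B z (w - b) : ℝ) := by exact_mod_cast h1
  have h2 : ∑ b ∈ Fb, (G B z (w - b) : ℝ) ≤ ∑ b ∈ Fb, ((((w - b : ℕ) : ℝ)) / p + η * p) :=
    Finset.sum_le_sum (fun b _ => hG z (w - b) (Nat.sub_le _ _))
  have h3 : ∑ b ∈ Fb, (w - b) ≤ ∑ s ∈ range w, G B z (s + 1) := by
    calc ∑ b ∈ Fb, (w - b) = ∑ b ∈ Fb, ∑ s ∈ range w, (if b ≤ s then 1 else 0) := by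
          apply sum_congr rfl
          intro b hb
          rw [← card_filter]
          have : (range w).filter (fun s => b ≤ s) = Ico b w := by
            ext s
            rw [mem_filter, mem_range, mem_Ico]
            exact and_comm
          rw [this, Nat.card_Ico]
      _ = ∑ s ∈ range w, ∑ b ∈ Fb, (if b ≤ s then 1 else 0) := sum_comm
      _ ≤ ∑ s ∈ range w, G B z (s + 1) := by
          apply sum_le_sum
          intro s hs
          rw [← card_filter]
          unfold G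
          apply card_le_card
          intro b hb
          rw [mem_filter, hFb, mem_filter] at hb
          rw [mem_filter, mem_range]
          exact ⟨by omega, hb.1.2⟩
  have h3' : (∑ b ∈ Fb, (((w - b : ℕ) : ℝ))) ≤ ∑ s ∈ range w, (G B z (s + 1) : ℝ) := by
    exact_mod_cast h3
  have h4 : ∑ s ∈ range w, (G B z (s + 1) : ℝ) ≤
      ∑ s ∈ range w, ((((s + 1 : ℕ) : ℝ)) / p + η * p) := by
    apply Finset.sum_le_sum
    intro s hs
    rw [mem_range] at hs
    exact hG z (s + 1) hs
  have h5 : ∀ n : ℕ, ∑ s ∈ range n, ((((s + 1 : ℕ) : ℝ)) / p + η * p) =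
      (n : ℝ) * (n + 1) / (2 * p) + n * (η * p) := by
    intro n
    induction n with
    | zero => simp
    | succ n ih =>
      rw [Finset.sum_range_succ, ih]
      push_cast
      field_simp
      ring
  rw [h5] at h4
  have h6 : (Fb.card : ℝ) ≤ (w : ℝ) / p + η * p := hG z w le_rfl
  have h7 : ∑ b ∈ Fb, ((((w - b : ℕ) : ℝ)) / p + η * p) =
      (∑ b ∈ Fb, (((w - b : ℕ) : ℝ))) / p + Fb.card * (η * p) := by
    rw [Finset.sum_add_distrib, Finset.sum_div, Finset.sum_const, nsmul_eq_mul]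
  have h8 : (∑ b ∈ Fb, (((w - b : ℕ) : ℝ))) / p ≤
      ((w : ℝ) * (w + 1) / (2 * p) + w * (η * p)) / p :=
    div_le_div_of_nonneg_right (h3'.trans h4) hp0.le
  have h9 : (Fb.card : ℝ) * (η * p) ≤ ((w : ℝ) / p + η * p) * (η * p) :=
    mul_le_mul_of_nonneg_right h6 (by positivity)
  have h10 : ((w : ℝ) * (w + 1) / (2 * p) + w * (η * p)) / p =
      (w : ℝ) ^ 2 / (2 * p ^ 2) + w / (2 * p ^ 2) + η * w := by
    field_simp
  have h11 : ((w : ℝ) / p + η * p) * (η * p) = η * w + η ^ 2 * p ^ 2 := by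
    field_simp
  have h12 : (w : ℝ) / (2 * p ^ 2) ≤ 1 := by
    rw [div_le_one (by positivity)]
    nlinarith [sq_nonneg p]
  have h13 : η * w ≤ η * p ^ 2 := mul_le_mul_of_nonneg_left hw hη
  calc (N2 B z w : ℝ) ≤ (∑ b ∈ Fb, (((w - b : ℕ) : ℝ))) / p + Fb.card * (η * p) := by
        rw [← h7]
        exact h1'.trans h2
    _ ≤ _ := by
        rw [h10] at h8
        rw [h11] at h9
        linarith

end Pool.Agent.H71.TI
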