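import Pool.Agent.H84.TI.Stm

set_option autoImplicit false

open Finset

namespace Pool.Agent.H71.TI

open Pool.Agent.H84.TI

theorem spa : S_SPA := by
  classical
  intro M _ B x0 hx0
  have e1 : ∑ t : ZMod M, ((At B x0 t ×ˢ At B x0 t).filter
      (fun q : ℕ × ℕ => q.1 + q.2 ∈ At B x0 t)).card =
      ((univ : Finset (ZMod M)).sigma (fun t => (At B x0 t ×ˢ At B x0 t).filter
      (fun q : ℕ × ℕ => q.1 + q.2 ∈ At B x0 t))).card := by
    rw [Finset.card_sigma]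
  have e2 : ∑ b ∈ B, N2 B (b - (x0 : ZMod M)) (M - x0) =
      (B.sigma (fun b => (range (M - x0) ×ˢ range (M - x0)).filter
        (fun q : ℕ × ℕ => q.1 + q.2 < M - x0 ∧
        (b - (x0 : ZMod M)) - (q.1 : ZMod M) ∈ B ∧
        (b - (x0 : ZMod M)) - (q.2 : ZMod M) ∈ B))).card := by
    rw [Finset.card_sigma]
    rfl
  rw [e1, e2]
  apply Finset.card_le_card_of_injOn
    (fun x : (Σ _ : ZMod M, ℕ × ℕ) => (⟨(x.2.1 : ZMod M) + (x.2.2 : ZMod M) - x.1,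
      (x.2.1 - x0, x.2.2 - x0)⟩ : (Σ _ : ZMod M, ℕ × ℕ)))
  · rintro ⟨t, a, b⟩ hx
    rw [Finset.mem_coe, Finset.mem_sigma] at hx
    obtain ⟨-, hx⟩ := hx
    simp only [At, mem_filter, mem_product, mem_Ico] at hx
    obtain ⟨⟨⟨⟨ha1, ha2⟩, ha3⟩, ⟨hb1, hb2⟩, hb3⟩, ⟨hc1, hc2⟩, hc3⟩ := hx
    rw [Finset.mem_coe, Finset.mem_sigma]
    simp only [mem_filter, mem_product, mem_range]
    push_cast at hc3
    have ea : ((a - x0 : ℕ) : ZMod M) = (a : ZMod M) - x0 := by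
      rw [Nat.cast_sub ha1]
    have eb : ((b - x0 : ℕ) : ZMod M) = (b : ZMod M) - x0 := by
      rw [Nat.cast_sub hb1]
    refine ⟨hc3, ⟨by omega, by omega⟩, by omega, ?_, ?_⟩
    · rw [ea]
      have : (a : ZMod M) + b - t - x0 - (a - x0) = b - t := by ring
      rw [this]
      exact hb3
    · rw [eb]
      have : (a : ZMod M) + b - t - x0 - (b - x0) = a - t := by ring
      rw [this]
      exact ha3
  · rintro ⟨t, a, b⟩ hx ⟨t', a', b'⟩ hx' h
    rw [Finset.mem_coe, Finset.mem_sigma] at hx hx'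
    obtain ⟨-, hx⟩ := hx
    obtain ⟨-, hx'⟩ := hx'
    simp only [At, mem_filter, mem_product, mem_Ico] at hx hx'
    obtain ⟨⟨⟨⟨ha1, ha2⟩, ha3⟩, ⟨hb1, hb2⟩, hb3⟩, ⟨hc1, hc2⟩, hc3⟩ := hx
    obtain ⟨⟨⟨⟨ha1', ha2'⟩, ha3'⟩, ⟨hb1', hb2'⟩, hb3'⟩, ⟨hc1', hc2'⟩, hc3'⟩ := hx'
    have h' := h
    simp only [Sigma.mk.injEq, heq_eq_eq, Prod.mk.injEq] at h'
    obtain ⟨h1, h2, h3⟩ := h'
    have haa : a = a' := by omega
    have hbb : b = b' := by omega
    subst haa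
    subst hbb
    have ht : t = t' := by
      have := h1
      simp only [sub_right_inj] at this
      exact this
    subst ht
    rfl

end Pool.Agent.H71.TI
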